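import Mathlib

/-! MP_d8826e_co: `b_{k-1} > 2/(k+1)` for `k = 49` and for every `k ≥ 52`. The hypergraphs are the
supports of the nonzero words of binary linear codes of dimension 5, trimmed to edges of the same
size. -/

set_option autoImplicit false

namespace Pool.Agent.Results.MP_d8826e_co.EveryKFrom52

open Finset

/-- `u` and `v` are neighbours: they are distinct and some edge contains both. -/
def Nbr {V : Type} (E : Finset (Finset V)) (u v : V) : Prop :=
  u ≠ v ∧ ∃ e ∈ E, u ∈ e ∧ v ∈ e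

/-- The hypergraph with vertex set `V` and edge set `E` belongs to the class `𝓗_k`: it has an edge,
it is `k`-uniform and has no isolated vertex and no isolated edge. -/
structure InH {V : Type} (k : ℕ) (E : Finset (Finset V)) : Prop where
  nonempty : E.Nonempty
  uniform : ∀ e ∈ E, e.card = k
  noIsolatedVertex : ∀ v : V, ∃ e ∈ E, v ∈ e
  noIsolatedEdge : ∀ e ∈ E, ∃ f ∈ E, f ≠ e ∧ ∃ v, v ∈ e ∧ v ∈ f

/-- `T` is a total transversal: it meets every edge, and every vertex of `T` has a neighbour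
in `T`. -/
structure IsTotalTransversal {V : Type} (E : Finset (Finset V)) (T : Finset V) : Prop where
  meets : ∀ e ∈ E, ∃ v ∈ T, v ∈ e
  total : ∀ v ∈ T, ∃ w ∈ T, Nbr E v w

/-- The minimum size of a total transversal. -/
noncomputable def tauT {V : Type} (E : Finset (Finset V)) : ℕ :=
  sInf {t | ∃ T : Finset V, IsTotalTransversal E T ∧ T.card = t}

/-- `b k` is the supremum of `τ_t(H) / (n_H + m_H)` over the class `𝓗_k`. -/
noncomputable def b (k : ℕ) : ℝ :=
  sSup {r : ℝ | ∃ (V : Type) (_ : Fintype V) (E : Finset (Finset V)), InH k E ∧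
    r = (tauT E : ℝ) / ((Fintype.card V : ℝ) + (E.card : ℝ))}

/-! ### General facts -/

theorem tauT_le {V : Type} {E : Finset (Finset V)} {T : Finset V} (h : IsTotalTransversal E T) :
    tauT E ≤ T.card := Nat.sInf_le ⟨T, h, rfl⟩

theorem univ_total {V : Type} [Fintype V] {k : ℕ} (hk : 2 ≤ k) {E : Finset (Finset V)}
    (h : InH k E) : IsTotalTransversal E (Finset.univ : Finset V) := by
  refine ⟨fun e he => ?_, fun v _ => ?_⟩
  · have : 0 < e.card := by rw [h.uniform e he]; omega
    obtain ⟨v, hv⟩ := card_pos.1 this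
    exact ⟨v, mem_univ v, hv⟩
  · obtain ⟨e, he, hv⟩ := h.noIsolatedVertex v
    have : 1 < e.card := by rw [h.uniform e he]; omega
    obtain ⟨w, hw, hne⟩ := exists_mem_ne this v
    exact ⟨w, mem_univ w, hne.symm, e, he, hv, hw⟩

theorem bddAbove_set {k : ℕ} (hk : 2 ≤ k) :
    BddAbove {r : ℝ | ∃ (V : Type) (_ : Fintype V) (E : Finset (Finset V)), InH k E ∧
      r = (tauT E : ℝ) / ((Fintype.card V : ℝ) + (E.card : ℝ))} := by
  refine ⟨1, ?_⟩
  rintro r ⟨V, _, E, hE, rfl⟩
  have h1 : tauT E ≤ Fintype.card V := tauT_le (univ_total hk hE)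
  have h2 : (tauT E : ℝ) ≤ Fintype.card V := by exact_mod_cast h1
  have h3 : 0 < (E.card : ℝ) := by exact_mod_cast card_pos.2 hE.nonempty
  have h4 : (0 : ℝ) ≤ Fintype.card V := Nat.cast_nonneg _
  rw [div_le_one (by linarith)]
  linarith

theorem le_b {k : ℕ} (hk : 2 ≤ k) {V : Type} [Fintype V] {E : Finset (Finset V)} (h : InH k E) :
    (tauT E : ℝ) / ((Fintype.card V : ℝ) + (E.card : ℝ)) ≤ b k :=
  le_csSup (bddAbove_set hk) ⟨V, inferInstance, E, h, rfl⟩

/-- A `k`-uniform family on fewer than `2k` vertices all of whose transversals have at least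
`t ≥ 2` vertices gives a lower bound for `b k`. Vertices in no edge are deleted. -/
theorem b_ge_of_family {k t : ℕ} (hk : 2 ≤ k) (ht : 2 ≤ t) {V : Type} [Fintype V]
    (hV : Fintype.card V < 2 * k) (E : Finset (Finset V)) (hE : E.Nonempty)
    (hu : ∀ e ∈ E, e.card = k)
    (hT : ∀ T : Finset V, (∀ e ∈ E, ∃ v ∈ T, v ∈ e) → t ≤ T.card) :
    (t : ℝ) / ((Fintype.card V : ℝ) + (E.card : ℝ)) ≤ b k := by
  classical
  let U := {v : V // ∃ e ∈ E, v ∈ e}
  let g : Finset V → Finset U := fun e => e.subtype fun v => ∃ e ∈ E, v ∈ e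
  have hg : ∀ e ∈ E, (g e).map (Function.Embedding.subtype _) = e := by
    intro e he
    exact Finset.subtype_map_of_mem fun v hv => ⟨e, he, hv⟩
  have hgc : ∀ e ∈ E, (g e).card = k := by
    intro e he
    rw [← hu e he]
    conv_rhs => rw [← hg e he]
    rw [card_map]
  have hgm : ∀ (e : Finset V) (v : U), v ∈ g e ↔ (v : V) ∈ e := by
    intro e v
    exact Finset.mem_subtype
  have hginj : ∀ e ∈ E, ∀ f ∈ E, g e = g f → e = f := by
    intro e he f hf h
    rw [← hg e he, ← hg f hf, h]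
  have hUV : Fintype.card U ≤ Fintype.card V := Fintype.card_subtype_le _
  have hcT : ∀ T : Finset U, (∀ e ∈ E.image g, ∃ v ∈ T, v ∈ e) → t ≤ T.card := by
    intro T h
    have := hT (T.map (Function.Embedding.subtype _)) (by
      intro e he
      obtain ⟨v, hvT, hve⟩ := h (g e) (mem_image_of_mem g he)
      refine ⟨v, ?_, (hgm e v).1 hve⟩
      exact mem_map.2 ⟨v, hvT, rfl⟩)
    rwa [card_map] at this
  have hin : InH k (E.image g) := by
    refine ⟨hE.image g, ?_, ?_, ?_⟩
    · intro e he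
      obtain ⟨e', he', rfl⟩ := mem_image.1 he
      exact hgc e' he'
    · rintro ⟨v, e, he, hv⟩
      exact ⟨g e, mem_image_of_mem g he, (hgm e _).2 hv⟩
    · intro e he
      -- there is another edge
      have hne : ∃ f ∈ E.image g, f ≠ e := by
        by_contra hcon
        push Not at hcon
        have hpos : 0 < e.card := by
          obtain ⟨e', he', rfl⟩ := mem_image.1 he
          rw [hgc e' he']; omega
        obtain ⟨v, hv⟩ := card_pos.1 hpos
        have := hcT {v} (by
          intro f hf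
          rw [hcon f hf]
          exact ⟨v, mem_singleton_self v, hv⟩)
        rw [card_singleton] at this
        omega
      obtain ⟨f, hf, hfe⟩ := hne
      refine ⟨f, hf, hfe, ?_⟩
      by_contra hcon
      push Not at hcon
      have hdis : Disjoint e f := by
        rw [Finset.disjoint_left]
        exact hcon
      have hle : (e ∪ f).card ≤ Fintype.card U := card_le_univ _
      obtain ⟨e', he', rfl⟩ := mem_image.1 he
      obtain ⟨f', hf', rfl⟩ := mem_image.1 hf
      rw [card_union_of_disjoint hdis, hgc e' he', hgc f' hf'] at hle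
      omega
  have hne : {s | ∃ T : Finset U, IsTotalTransversal (E.image g) T ∧ T.card = s}.Nonempty :=
    ⟨_, Finset.univ, univ_total hk hin, rfl⟩
  have htau : t ≤ tauT (E.image g) := by
    obtain ⟨T, hT', hcard⟩ := Nat.sInf_mem hne
    have : tauT (E.image g) = T.card := hcard.symm
    rw [this]
    exact hcT T hT'.meets
  refine le_trans ?_ (le_b hk hin)
  have h1 : (t : ℝ) ≤ tauT (E.image g) := by exact_mod_cast htau
  have h2 : ((E.image g).card : ℝ) ≤ E.card := by exact_mod_cast card_image_le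
  have h3 : (Fintype.card U : ℝ) ≤ Fintype.card V := by exact_mod_cast hUV
  have h4 : (0 : ℝ) < ((E.image g).card : ℝ) := by exact_mod_cast card_pos.2 hin.nonempty
  have h5 : (0 : ℝ) ≤ Fintype.card U := Nat.cast_nonneg _
  apply div_le_div₀ <;> first | positivity | linarith

/-! ### Codes of dimension 5 -/

/-- the space of dimension `5` over the field with two elements -/
abbrev Vec : Type := ZMod 2 × ZMod 2 × ZMod 2 × ZMod 2 × ZMod 2

/-- the bilinear form -/
def dot (v z : Vec) : ZMod 2 :=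
  v.1 * z.1 + (v.2.1 * z.2.1 + (v.2.2.1 * z.2.2.1 +
    (v.2.2.2.1 * z.2.2.2.1 + v.2.2.2.2 * z.2.2.2.2)))

theorem dot_sub (v z w : Vec) : dot v (z - w) = dot v z - dot v w := by
  simp only [dot, Prod.fst_sub, Prod.snd_sub]
  ring

theorem dot_add_left (v w z : Vec) : dot (v + w) z = dot v z + dot w z := by
  simp only [dot, Prod.fst_add, Prod.snd_add]
  ring

theorem zmod2 (a c : ZMod 2) (ha : a ≠ 0) (hc : c ≠ 0) : a + c = 0 := by
  revert a c
  decide

/-- at most half of the vectors of a subspace are in the support -/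
theorem card_le_half (U : Finset Vec) (hU : ∀ v ∈ U, ∀ w ∈ U, v + w ∈ U) (z : Vec) :
    2 * (U.filter fun v => dot v z ≠ 0).card ≤ U.card := by
  by_cases h : ∃ e ∈ U, dot e z ≠ 0
  · obtain ⟨e, heU, he⟩ := h
    have h1 : (U.filter fun v => dot v z ≠ 0).card ≤ (U.filter fun v => ¬ dot v z ≠ 0).card := by
      refine card_le_card_of_injOn (fun v => v + e) ?_ ?_
      · intro v hv
        obtain ⟨hvU, hv1⟩ := mem_filter.1 (mem_coe.1 hv)
        refine mem_coe.2 (mem_filter.2 ⟨hU v hvU e heU, ?_⟩)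
        rw [dot_add_left, zmod2 _ _ hv1 he]
        simp
      · intro v _ w _ hvw
        exact add_right_cancel hvw
    have h2 := card_filter_add_card_filter_not (s := U) (fun v => dot v z ≠ 0)
    omega
  · have h1 : (U.filter fun v => dot v z ≠ 0) = ∅ := by
      rw [filter_eq_empty_iff]
      intro v hv hv1
      exact h ⟨v, hv, hv1⟩
    rw [h1]
    simp

theorem card_vec : Fintype.card Vec = 32 := by
  simp only [Fintype.card_prod, ZMod.card]

theorem exists_dot {z : Vec} (hz : z ≠ 0) : ∃ e : Vec, dot e z ≠ 0 := by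
  by_contra hcon
  push Not at hcon
  have h1 := hcon (1, 0, 0, 0, 0)
  have h2 := hcon (0, 1, 0, 0, 0)
  have h3 := hcon (0, 0, 1, 0, 0)
  have h4 := hcon (0, 0, 0, 1, 0)
  have h5 := hcon (0, 0, 0, 0, 1)
  simp only [dot, one_mul, zero_mul, zero_add, add_zero] at h1 h2 h3 h4 h5
  exact hz (Prod.ext h1 (Prod.ext h2 (Prod.ext h3 (Prod.ext h4 h5))))

/-- half of all vectors are in the support of a nonzero functional -/
theorem le_card_supp {z : Vec} (hz : z ≠ 0) :
    16 ≤ (univ.filter fun v : Vec => dot v z ≠ 0).card := by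
  obtain ⟨e, he⟩ := exists_dot hz
  have h1 : (univ.filter fun v : Vec => ¬ dot v z ≠ 0).card ≤
      (univ.filter fun v : Vec => dot v z ≠ 0).card := by
    refine card_le_card_of_injOn (fun v => v + e) ?_ ?_
    · intro v hv
      obtain ⟨-, hv1⟩ := mem_filter.1 (mem_coe.1 hv)
      refine mem_coe.2 (mem_filter.2 ⟨mem_univ _, ?_⟩)
      rw [dot_add_left, not_not.1 hv1, zero_add]
      exact he
    · intro v _ w _ hvw
      exact add_right_cancel hvw
  have h2 := card_filter_add_card_filter_not (s := (univ : Finset Vec)) (fun v => dot v z ≠ 0)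
  rw [card_univ, card_vec] at h2
  omega

/-- `Code n w`: there is a family of `n` vectors such that every nonzero functional is nonzero on at
least `w` of them. -/
def Code (n w : ℕ) : Prop :=
  ∃ (V : Type) (_ : Fintype V) (φ : V → Vec), Fintype.card V = n ∧
    ∀ z : Vec, z ≠ 0 → w ≤ (univ.filter fun p : V => dot (φ p) z ≠ 0).card

theorem Code.add {n w n' w' : ℕ} (h : Code n w) (h' : Code n' w') : Code (n + n') (w + w') := by
  obtain ⟨V, _, φ, hV, hφ⟩ := h
  obtain ⟨W, _, ψ, hW, hψ⟩ := h'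
  refine ⟨V ⊕ W, inferInstance, Sum.elim φ ψ, by rw [Fintype.card_sum, hV, hW], ?_⟩
  intro z hz
  have key : (univ.filter fun p : V ⊕ W => dot (Sum.elim φ ψ p) z ≠ 0)
      = (univ.filter fun p : V => dot (φ p) z ≠ 0).disjSum
        (univ.filter fun p : W => dot (ψ p) z ≠ 0) := by
    ext p
    rcases p with p | p <;> simp
  rw [key, card_disjSum]
  exact add_le_add (hφ z hz) (hψ z hz)

theorem Code.zero : Code 0 0 :=
  ⟨Empty, inferInstance, fun p => p.elim, rfl, fun _ _ => Nat.zero_le _⟩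

theorem Code.mul {n w : ℕ} (h : Code n w) (y : ℕ) : Code (y * n) (y * w) := by
  induction y with
  | zero => simpa using Code.zero
  | succ y ih =>
    rw [Nat.succ_mul, Nat.succ_mul]
    exact ih.add h

/-- the vectors outside a subspace -/
theorem code_compl (U : Finset Vec) (hU : ∀ v ∈ U, ∀ w ∈ U, v + w ∈ U) {n w : ℕ}
    (hn : n + U.card = 32) (hw : 2 * w + U.card ≤ 33) : Code n w := by
  refine ⟨{v : Vec // v ∉ U}, inferInstance, fun p => p.1, ?_, ?_⟩
  · rw [Fintype.card_subtype_compl, card_vec, Fintype.card_coe]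
    omega
  · intro z hz
    change w ≤ (univ.filter fun p : {v : Vec // v ∉ U} => dot p.1 z ≠ 0).card
    have h1 : (univ.filter fun v : Vec => dot v z ≠ 0) \ U ⊆
        (univ.filter fun p : {v : Vec // v ∉ U} => dot p.1 z ≠ 0).map
          (Function.Embedding.subtype _) := by
      intro v hv
      obtain ⟨hv1, hv2⟩ := mem_sdiff.1 hv
      exact mem_map.2 ⟨⟨v, hv2⟩, mem_filter.2 ⟨mem_univ _, (mem_filter.1 hv1).2⟩, rfl⟩
    have h2 := card_le_card h1
    rw [card_map] at h2
    have h3 := card_sdiff_add_card_inter (univ.filter fun v : Vec => dot v z ≠ 0) U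
    have h4 : ((univ.filter fun v : Vec => dot v z ≠ 0) ∩ U) = U.filter fun v => dot v z ≠ 0 := by
      ext v
      simp only [mem_inter, mem_filter, mem_univ, true_and]
      exact and_comm
    rw [h4] at h3
    have h5 := card_le_half U hU z
    have h6 := le_card_supp hz
    omega

/-- a subspace of dimension 1 -/
def U1 : Finset Vec := {(0, 0, 0, 0, 0), (0, 0, 0, 0, 1)}

/-- a subspace of dimension 2 -/
def U2 : Finset Vec := {(0, 0, 0, 0, 0), (0, 0, 0, 0, 1), (0, 0, 0, 1, 0), (0, 0, 0, 1, 1)}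

/-- a subspace of dimension 3 -/
def U3 : Finset Vec := univ.filter fun v => v.1 = 0 ∧ v.2.1 = 0

/-- a subspace of dimension 4 -/
def U4 : Finset Vec := univ.filter fun v => v.1 = 0

theorem code31 : Code 31 16 :=
  code_compl {0} (by simp) (by simp) (by simp)

theorem code30 : Code 30 15 :=
  code_compl U1 (by decide) (by decide) (by decide)

theorem code28 : Code 28 14 :=
  code_compl U2 (by decide) (by decide) (by decide)

theorem code24 : Code 24 12 := by
  have h : U3.card = 8 := by decide +kernel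
  refine code_compl U3 ?_ (by rw [h]) (by rw [h]; norm_num)
  intro v hv w hw
  simp only [U3, mem_filter, mem_univ, true_and] at hv hw ⊢
  rw [Prod.fst_add, Prod.snd_add, Prod.fst_add, hv.1, hv.2, hw.1, hw.2]
  simp

theorem code16 : Code 16 8 := by
  have h : U4.card = 16 := by decide +kernel
  refine code_compl U4 ?_ (by rw [h]) (by rw [h]; norm_num)
  intro v hv w hw
  simp only [U4, mem_filter, mem_univ, true_and] at hv hw ⊢
  rw [Prod.fst_add, hv, hw]
  simp

theorem card_nonzero : (univ.filter fun z : Vec => z ≠ 0).card = 31 := by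
  rw [filter_ne' univ (0 : Vec), card_erase_of_mem (mem_univ _), card_univ, card_vec]

theorem one_ne : ((1, 1, 1, 1, 1) : Vec) ≠ 0 := by
  intro h
  have := congrArg Prod.fst h
  simp at this

/-- the five-dimensional pigeonhole: a set of less than five vertices misses some support -/
theorem exists_missed {V : Type} (φ : V → Vec) (T : Finset V) (hT : T.card < 5) :
    ∃ z : Vec, z ≠ 0 ∧ ∀ p ∈ T, dot (φ p) z = 0 := by
  classical
  have hc : Fintype.card (T → ZMod 2) < Fintype.card Vec := by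
    rw [Fintype.card_fun, ZMod.card, Fintype.card_coe, card_vec]
    calc 2 ^ T.card ≤ 2 ^ 4 := Nat.pow_le_pow_right (by norm_num) (by omega)
      _ < 32 := by norm_num
  obtain ⟨z, w, hne, heq⟩ := Fintype.exists_ne_map_eq_of_card_lt
    (fun z : Vec => fun p : T => dot (φ p.1) z) hc
  refine ⟨z - w, sub_ne_zero.2 hne, fun p hp => ?_⟩
  rw [dot_sub]
  exact sub_eq_zero.2 (congrFun heq ⟨p, hp⟩)

/-- A code gives a lower bound for `b`. -/
theorem b_ge_of_code {n k : ℕ} (hk : 2 ≤ k) (hn : n < 2 * k) (h : Code n k) :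
    (5 : ℝ) / (n + 31) ≤ b k := by
  obtain ⟨V, _, φ, hV, hφ⟩ := h
  have hsub : ∀ z : Vec, ∃ e : Finset V, z ≠ 0 →
      ((∀ p ∈ e, dot (φ p) z ≠ 0) ∧ e.card = k) := by
    intro z
    by_cases hz : z = 0
    · exact ⟨∅, fun h => absurd hz h⟩
    · obtain ⟨e, he, hec⟩ := exists_subset_card_eq (hφ z hz)
      exact ⟨e, fun _ => ⟨fun p hp => (mem_filter.1 (he hp)).2, hec⟩⟩
  choose e he using hsub
  classical
  set E : Finset (Finset V) := (univ.filter fun z : Vec => z ≠ 0).image e with hE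
  have hmem : ∀ z : Vec, z ≠ 0 → e z ∈ E := fun z hz =>
    mem_image_of_mem e (mem_filter.2 ⟨mem_univ z, hz⟩)
  have hex : ∀ f ∈ E, ∃ z : Vec, z ≠ 0 ∧ e z = f := by
    intro f hf
    obtain ⟨z, hz, hzf⟩ := mem_image.1 hf
    exact ⟨z, (mem_filter.1 hz).2, hzf⟩
  have hEc : E.card ≤ 31 := by
    rw [← card_nonzero]
    exact card_image_le
  have hEne : E.Nonempty := ⟨_, hmem _ one_ne⟩
  have hmain : ((5 : ℕ) : ℝ) / ((Fintype.card V : ℝ) + (E.card : ℝ)) ≤ b k := by
    refine b_ge_of_family hk (by norm_num) (by rw [hV]; exact hn) E hEne ?_ ?_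
    · intro f hf
      obtain ⟨z, hz, rfl⟩ := hex f hf
      exact (he z hz).2
    · intro T hT
      by_contra hlt
      push Not at hlt
      obtain ⟨z, hz, hzT⟩ := exists_missed φ T hlt
      obtain ⟨p, hpT, hp⟩ := hT (e z) (hmem z hz)
      exact (he z hz).1 p hp (hzT p hpT)
  clear_value E
  have h2 : (E.card : ℝ) ≤ 31 := by exact_mod_cast hEc
  have h4 : (0 : ℝ) < (E.card : ℝ) := by exact_mod_cast card_pos.2 hEne
  have h5 : (0 : ℝ) ≤ n := Nat.cast_nonneg _
  rw [hV] at hmain
  refine le_trans ?_ hmain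
  rw [Nat.cast_ofNat]
  exact div_le_div_of_nonneg_left (by norm_num) (by linarith) (by linarith)

/-- The code used for `K = 16 y - (b₁ + 2 b₂ + 4 b₃ + 8 b₄)`. -/
theorem code_main (a b₁ b₂ b₃ b₄ : ℕ) :
    Code (31 * a + 30 * b₁ + 28 * b₂ + 24 * b₃ + 16 * b₄)
      (16 * a + 15 * b₁ + 14 * b₂ + 12 * b₃ + 8 * b₄) := by
  have h := ((((code31.mul a).add (code30.mul b₁)).add (code28.mul b₂)).add (code24.mul b₃)).add
    (code16.mul b₄)
  convert h using 1 <;> ring

/-- `b_K > 2/(K+2)` as soon as a suitable code exists. -/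
theorem b_gt {K : ℕ} (hK : K = 48 ∨ 51 ≤ K) : (2 : ℝ) / (K + 2) < b K := by
  obtain ⟨a, b₁, b₂, b₃, b₄, hw, hn, hn2⟩ : ∃ a b₁ b₂ b₃ b₄ : ℕ,
      16 * a + 15 * b₁ + 14 * b₂ + 12 * b₃ + 8 * b₄ = K ∧
      31 * a + 30 * b₁ + 28 * b₂ + 24 * b₃ + 16 * b₄ < 2 * K ∧
      2 * (31 * a + 30 * b₁ + 28 * b₂ + 24 * b₃ + 16 * b₄) + 52 < 5 * K := by
    rcases hK with rfl | hK
    · exact ⟨3, 0, 0, 0, 0, by norm_num, by norm_num, by norm_num⟩
    · -- the deficiency of `K` modulo 16
      have hd : ∃ y d : ℕ, K + d = 16 * y ∧ d < 16 := by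
        refine ⟨(K + 15) / 16, 16 * ((K + 15) / 16) - K, ?_, ?_⟩ <;> omega
      obtain ⟨y, d, hyd, hd16⟩ := hd
      have hb : ∀ d < 16, ∃ b₁ b₂ b₃ b₄ : ℕ, b₁ ≤ 1 ∧ b₂ ≤ 1 ∧ b₃ ≤ 1 ∧ b₄ ≤ 1 ∧
          b₁ + 2 * b₂ + 4 * b₃ + 8 * b₄ = d := by
        intro d hd
        refine ⟨d % 2, d / 2 % 2, d / 4 % 2, d / 8 % 2, ?_, ?_, ?_, ?_, ?_⟩ <;> omega
      obtain ⟨b₁, b₂, b₃, b₄, h1, h2, h3, h4, hs⟩ := hb d hd16
      refine ⟨y - (b₁ + b₂ + b₃ + b₄), b₁, b₂, b₃, b₄, ?_, ?_, ?_⟩
      · omega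
      · omega
      · interval_cases b₁ <;> interval_cases b₂ <;> interval_cases b₃ <;> interval_cases b₄ <;>
          omega
  have hK2 : 2 ≤ K := by omega
  have h := b_ge_of_code hK2 (n := 31 * a + 30 * b₁ + 28 * b₂ + 24 * b₃ + 16 * b₄) hn
    (hw ▸ code_main a b₁ b₂ b₃ b₄)
  refine lt_of_lt_of_le ?_ h
  generalize 31 * a + 30 * b₁ + 28 * b₂ + 24 * b₃ + 16 * b₄ = n at hn2
  have h5 : (2 : ℝ) * n + 52 < 5 * K := by exact_mod_cast hn2
  have h6 : (0 : ℝ) ≤ n := Nat.cast_nonneg _
  have h7 : (0 : ℝ) ≤ K := Nat.cast_nonneg _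
  rw [div_lt_div_iff₀ (by linarith) (by linarith)]
  linarith

/-- `b_{k-1} > 2/(k+1)` for `k = 49` and for every `k ≥ 52`. -/
theorem result : ∀ k : ℕ, k = 49 ∨ 52 ≤ k → 2 / ((k : ℝ) + 1) < b (k - 1) := by
  intro k hk
  have h := b_gt (K := k - 1) (by omega)
  have h1 : ((k - 1 : ℕ) : ℝ) = k - 1 := by
    rw [Nat.cast_sub (by omega)]; simp
  rw [h1] at h
  have h2 : (k : ℝ) - 1 + 2 = k + 1 := by ring
  rwa [h2] at h

end Pool.Agent.Results.MP_d8826e_co.EveryKFrom52
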